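import Pool.Agent.MWT.Stmts

/-!
# Squad MWT (problem MP_23468a_al), row PWX

The power of a word of local letters is absorbed by `sh`.
-/

set_option autoImplicit false

namespace Pool.Agent.MWT.H47

open Pool.Agent.Helper14_MV Pool.Agent.Helper2_MV Pool.Agent.MVD Pool.Agent.MWT
open Pool.Agent.Helper96_MWV (pwd flat_P pwd_hp)

/-- the composed map -/
def sd (n d : ℕ) (w : List ℕ) : List ℕ := sh n (dl d w)

theorem sd_app (n d : ℕ) (u v : List ℕ) : sd n d (u ++ v) = sd n d u ++ sd n d v := by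
  unfold sd sh dl
  rw [List.filter_append, List.flatMap_append]

theorem sd_pwd (n d k : ℕ) (w : List ℕ) : sd n d (pwd k w) = pwd k (sd n d w) := by
  induction k with
  | zero => rfl
  | succ k ih =>
    show sd n d (w ++ pwd k w) = sd n d w ++ pwd k (sd n d w)
    rw [sd_app, ih]

theorem sh_loc (n : ℕ) (w : List ℕ) (h : ∀ s ∈ w, s % 3 = 0 ∧ 42 ≤ s) : sh n w = hp n w := by
  induction w with
  | nil => rfl
  | cons a w ih =>
    show (if a % 3 = 0 ∧ 42 ≤ a then P (n + 1) a else [a]) ++ sh n w =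
      List.replicate (n + 1) a ++ hp n w
    rw [if_pos (h a (by simp)), ih (fun s hs => h s (List.mem_cons_of_mem _ hs))]

theorem sd_loc (n d : ℕ) (w : List ℕ) (h : ∀ s ∈ w, s = d ∨ (s % 3 = 0 ∧ 42 ≤ s)) :
    sd n d w = hp n (dl d w) := by
  refine sh_loc n (dl d w) (fun s hs => ?_)
  unfold dl at hs
  rw [List.mem_filter] at hs
  rcases h s hs.1 with h' | h'
  · have := hs.2
    simp [h'] at this
  · exact h'

theorem pw_rr {n : ℕ} {β : FIC} (wo : Wo n β) (w : List ℕ) {a : ℕ} (ha : a = 1 ∨ a = n + 1) :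
    RR β (pwd a (hp n w)) (hp n w) := by
  rcases ha with rfl | rfl
  · have e : pwd 1 (hp n w) = hp n w := by
      show hp n w ++ [] = hp n w
      rw [List.append_nil]
    rw [e]
    exact RR.refl _
  · exact pwd_hp wo.ap wo.hn wo.cm w

theorem step {n : ℕ} {β : FIC} (wo : Wo n β) (d x : ℕ) (φ : ℕ → List ℕ) (A C D M N : List ℕ)
    (h : ∀ s ∈ φ x, s = d ∨ (s % 3 = 0 ∧ 42 ≤ s)) (a a' : ℕ) (ha : a = 1 ∨ a = n + 1)
    (ha' : a' = 1 ∨ a' = n + 1) :
    RR β (sh n (dl d (M ++ ((A ++ (P a x ++ (C ++ (P a x ++ D)))).flatMap φ ++ N))))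
      (sh n (dl d (M ++ ((A ++ (P a' x ++ (C ++ (P a' x ++ D)))).flatMap φ ++ N)))) := by
  have form : ∀ k : ℕ, sh n (dl d (M ++ ((A ++ (P k x ++ (C ++ (P k x ++ D)))).flatMap φ ++ N))) =
      sd n d M ++ ((sd n d (A.flatMap φ) ++ (pwd k (hp n (dl d (φ x))) ++
        (sd n d (C.flatMap φ) ++ (pwd k (hp n (dl d (φ x))) ++ sd n d (D.flatMap φ))))) ++
          sd n d N) := by
    intro k
    show sd n d _ = _
    rw [List.flatMap_append, List.flatMap_append, List.flatMap_append, List.flatMap_append,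
      show (P k x).flatMap φ = pwd k (φ x) from flat_P φ k x, sd_app, sd_app, sd_app, sd_app,
      sd_app, sd_app, sd_pwd, sd_loc n d (φ x) h]
  rw [form a, form a']
  have hp1 : RR β (pwd a (hp n (dl d (φ x)))) (pwd a' (hp n (dl d (φ x)))) :=
    β.trans (pw_rr wo _ ha) (pw_rr wo _ ha').symm
  exact (RR.refl _).append (((RR.refl _).append (hp1.append ((RR.refl _).append
    (hp1.append (RR.refl _))))).append (RR.refl _))

theorem pwx (h1 : SwxStmt) : PwxStmt := by
  intro n β m R c a a' b M N φ wo hR hc ha ha'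
  obtain ⟨⟨A, C, D, -, -, -, e⟩, ⟨A', C', D', -, -, -, e'⟩⟩ := h1 n m R c b hR hc
  refine ⟨fun d h => ?_, fun d h => ?_⟩
  · rw [e a, e a']
    exact step wo d 0 φ A C D M N h a a' ha ha'
  · rw [e' a, e' a']
    exact step wo d 6 φ A' C' D' M N h a a' ha ha'

end Pool.Agent.MWT.H47
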